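import Pool.Agent.Q85.VL.Defs

/-!
Project VL: common facts on the functions `uu`, `ww`, `TT`, `PS`, `pr`.
-/

set_option autoImplicit false

open MeasureTheory Set Metric
open scoped ContDiff
open H459R3.NS Pool.Agent.W268.NS Pool.Agent.Q67.VD

namespace Pool.Agent.Q182.VL

open Pool.Agent.Q85.VL

section basics

theorem stp_deriv (hB : StmBas) (s : ℝ) : HasDerivAt stp (stp' s) s := hB.1 s
theorem stp_smooth (hB : StmBas) : ContDiff ℝ 1 stp := hB.2.1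
theorem stp'_cont (hB : StmBas) : Continuous stp' := hB.2.2.1
theorem stp_mono (hB : StmBas) : Monotone stp := hB.2.2.2.1
theorem stp_nonneg (hB : StmBas) (s : ℝ) : 0 ≤ stp s := (hB.2.2.2.2.1 s).1
theorem stp_le (hB : StmBas) (s : ℝ) : stp s ≤ 1 := (hB.2.2.2.2.1 s).2.1
theorem stp'_nonneg (hB : StmBas) (s : ℝ) : 0 ≤ stp' s := (hB.2.2.2.2.1 s).2.2.1
theorem stp'_le (hB : StmBas) (s : ℝ) : stp' s ≤ 2 := (hB.2.2.2.2.1 s).2.2.2
theorem stp_zero (hB : StmBas) {s : ℝ} (h : s ≤ 0) : stp s = 0 := hB.2.2.2.2.2.1 s h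
theorem stp_one (hB : StmBas) {s : ℝ} (h : 1 ≤ s) : stp s = 1 := hB.2.2.2.2.2.2.1 s h
theorem stp'_ne (hB : StmBas) {s : ℝ} (h : stp' s ≠ 0) : 0 < s ∧ s < 1 := hB.2.2.2.2.2.2.2.1 s h
theorem stp_ne (hB : StmBas) {s : ℝ} (h : stp s ≠ 0) : 0 < s := hB.2.2.2.2.2.2.2.2.1 s h
theorem stp_ne_one (hB : StmBas) {s : ℝ} (h : stp s ≠ 1) : s < 1 := hB.2.2.2.2.2.2.2.2.2.1 s h

variable {x : V} {ρ : ℝ}

theorem ds_smooth (hB : StmBas) (hρ : 0 < ρ) : ContDiff ℝ ∞ (ds x ρ) :=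
  (hB.2.2.2.2.2.2.2.2.2.2 x ρ hρ).1
theorem len_le_ds (hB : StmBas) (hρ : 0 < ρ) (y : V) : len (y - x) ≤ ds x ρ y :=
  (hB.2.2.2.2.2.2.2.2.2.2 x ρ hρ).2.1 y
theorem rho_le_ds (hB : StmBas) (hρ : 0 < ρ) (y : V) : ρ ≤ ds x ρ y :=
  (hB.2.2.2.2.2.2.2.2.2.2 x ρ hρ).2.2.1 y
theorem ds_le (hB : StmBas) (hρ : 0 < ρ) (y : V) : ds x ρ y ≤ len (y - x) + ρ :=
  (hB.2.2.2.2.2.2.2.2.2.2 x ρ hρ).2.2.2.1 y
theorem norm_le_ds (hB : StmBas) (hρ : 0 < ρ) (y : V) : ‖y - x‖ ≤ ds x ρ y :=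
  (hB.2.2.2.2.2.2.2.2.2.2 x ρ hρ).2.2.2.2.1 y
theorem ds_le_two (hB : StmBas) (hρ : 0 < ρ) (y : V) (h : ‖y - x‖ ≤ ρ) : ds x ρ y ≤ 2 * ρ :=
  (hB.2.2.2.2.2.2.2.2.2.2 x ρ hρ).2.2.2.2.2.1 y h
theorem ds_lip (hB : StmBas) (hρ : 0 < ρ) (y z : V) : |ds x ρ y - ds x ρ z| ≤ len (y - z) :=
  (hB.2.2.2.2.2.2.2.2.2.2 x ρ hρ).2.2.2.2.2.2.1 y z
theorem ds_fd (hB : StmBas) (hρ : 0 < ρ) (y n : V) : |fderiv ℝ (ds x ρ) y n| ≤ len n :=
  (hB.2.2.2.2.2.2.2.2.2.2 x ρ hρ).2.2.2.2.2.2.2 y n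

end basics

section fld

variable {κ ρ R : ℝ} {x : V} {f m : V → ℝ} {W : V → V} {g : V → ℝ}

theorem ds_one (hB : StmBas) (hρ : 0 < ρ) : ContDiff ℝ 1 (ds x ρ) :=
  (ds_smooth hB hρ).of_le (by exact_mod_cast le_top)

theorem uu_one (hB : StmBas) (hρ : 0 < ρ) (hg : ContDiff ℝ 1 g) : ContDiff ℝ 1 (uu κ ρ g x) := by
  unfold uu
  exact (hg.sub contDiff_const).sub (contDiff_const.mul (ds_one hB hρ))

theorem ww_one (hB : StmBas) (hρ : 0 < ρ) (hg : ContDiff ℝ 1 g) : ContDiff ℝ 1 (ww κ ρ g x) := by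
  unfold ww
  exact (hg.sub contDiff_const).sub (contDiff_const.mul (ds_one hB hρ))

theorem lin_fd (hB : StmBas) (hρ : 0 < ρ) (hg : ContDiff ℝ 1 g) (c d : ℝ) (y n : V) :
    fderiv ℝ (fun y => g y - c - d * ds x ρ y) y n = fderiv ℝ g y n - d * fderiv ℝ (ds x ρ) y n := by
  have h1 : HasFDerivAt g (fderiv ℝ g y) y := (hg.differentiable one_ne_zero y).hasFDerivAt
  have h2 : HasFDerivAt (ds x ρ) (fderiv ℝ (ds x ρ) y) y :=
    ((ds_one hB hρ).differentiable one_ne_zero y).hasFDerivAt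
  have h3 := (h1.sub_const c).fun_sub (h2.const_mul d)
  rw [h3.fderiv]
  simp

theorem uu_fd (hB : StmBas) (hρ : 0 < ρ) (hg : ContDiff ℝ 1 g) (y n : V) :
    fderiv ℝ (uu κ ρ g x) y n = fderiv ℝ g y n - κ / 2 * fderiv ℝ (ds x ρ) y n :=
  lin_fd hB hρ hg (g x) (κ / 2) y n

theorem ww_fd (hB : StmBas) (hρ : 0 < ρ) (hg : ContDiff ℝ 1 g) (y n : V) :
    fderiv ℝ (ww κ ρ g x) y n = fderiv ℝ g y n - 3 * κ / 4 * fderiv ℝ (ds x ρ) y n :=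
  lin_fd hB hρ hg (g x) (3 * κ / 4) y n

theorem dds_le (hB : StmBas) (hρ : 0 < ρ) {x' : V} (h : LF κ R x' f m W g) {y : V}
    (hy : y ∈ closedBall x' R) : |fderiv ℝ (ds x ρ) y (W y)| ≤ f y :=
  (ds_fd hB hρ y (W y)).trans (h.up y hy)

theorem du_nonneg (hB : StmBas) (hκ : 0 < κ) (hρ : 0 < ρ) (h : LF κ R x f m W g) {y : V}
    (hy : y ∈ closedBall x R) : κ / 2 * f y ≤ fderiv ℝ (uu κ ρ g x) y (W y) + m y := by
  rw [uu_fd hB hρ h.gs]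
  have h1 := (abs_le.1 (dds_le (x := x) hB hρ h hy)).2
  have h2 := h.lo y hy
  nlinarith

theorem dw_nonneg (hB : StmBas) (hκ : 0 < κ) (hρ : 0 < ρ) (h : LF κ R x f m W g) {y : V}
    (hy : y ∈ closedBall x R) : κ / 4 * f y ≤ fderiv ℝ (ww κ ρ g x) y (W y) + m y := by
  rw [ww_fd hB hρ h.gs]
  have h1 := (abs_le.1 (dds_le (x := x) hB hρ h hy)).2
  have h2 := h.lo y hy
  nlinarith

theorem f_nonneg (h : LF κ R x f m W g) {y : V} (hy : y ∈ closedBall x R) : 0 ≤ f y :=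
  (Real.sqrt_nonneg _).trans (h.up y hy)

theorem step_deriv (hB : StmBas) {φ : V → ℝ} {L : V →L[ℝ] ℝ} {y : V} (hφ : HasFDerivAt φ L y)
    (a b : ℝ) : HasFDerivAt (fun y => stp ((φ y + a) / b)) ((stp' ((φ y + a) / b) / b) • L) y := by
  have h1 : HasFDerivAt (fun y => (φ y + a) / b) (b⁻¹ • L) y := by
    have h2 := (hφ.add_const a).const_mul b⁻¹
    refine h2.congr_of_eventuallyEq (Filter.Eventually.of_forall fun z => ?_)
    show (φ z + a) / b = b⁻¹ * (φ z + a)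
    rw [div_eq_inv_mul]
  have h2 := (stp_deriv hB ((φ y + a) / b)).comp_hasFDerivAt y h1
  refine h2.congr_fderiv ?_
  rw [smul_smul, ← div_eq_mul_inv]

theorem step_one (hB : StmBas) {φ : V → ℝ} (hφ : ContDiff ℝ 1 φ) (a b : ℝ) :
    ContDiff ℝ 1 (fun y => stp ((φ y + a) / b)) :=
  (stp_smooth hB).comp ((hφ.add contDiff_const).div_const b)

theorem TT_one (hB : StmBas) (hρ : 0 < ρ) (hg : ContDiff ℝ 1 g) (r : ℝ) :
    ContDiff ℝ 1 (TT κ ρ g x r) := step_one hB (ww_one hB hρ hg) _ _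

theorem PS_one (hB : StmBas) (hρ : 0 < ρ) (hg : ContDiff ℝ 1 g) (r : ℝ) :
    ContDiff ℝ 1 (PS κ ρ g x r) := by
  have h := step_one hB (uu_one (κ := κ) (x := x) hB hρ hg) (-(κ * r / 64)) (κ * r / 64)
  exact h

theorem TT_deriv (hB : StmBas) (hρ : 0 < ρ) (hg : ContDiff ℝ 1 g) (r : ℝ) (y : V) :
    HasFDerivAt (TT κ ρ g x r)
      ((stp' ((ww κ ρ g x y + κ * r / 8) / (κ * r / 16)) / (κ * r / 16)) •
        fderiv ℝ (ww κ ρ g x) y) y :=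
  step_deriv hB ((ww_one hB hρ hg).differentiable one_ne_zero y).hasFDerivAt _ _

theorem PS_deriv (hB : StmBas) (hρ : 0 < ρ) (hg : ContDiff ℝ 1 g) (r : ℝ) (y : V) :
    HasFDerivAt (PS κ ρ g x r)
      ((stp' ((uu κ ρ g x y - κ * r / 64) / (κ * r / 64)) / (κ * r / 64)) •
        fderiv ℝ (uu κ ρ g x) y) y :=
  step_deriv hB ((uu_one hB hρ hg).differentiable one_ne_zero y).hasFDerivAt
    (-(κ * r / 64)) (κ * r / 64)

theorem pr_cont (hB : StmBas) (hρ : 0 < ρ) (hg : ContDiff ℝ 1 g) (hW : Continuous W)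
    (hm : Continuous m) (r : ℝ) : Continuous (Q85.VL.pr κ ρ g x W m r) := by
  unfold Q85.VL.pr
  have h1 := (TT_one (κ := κ) (x := x) hB hρ hg r).continuous
  have h2 := (uu_one (κ := κ) (x := x) hB hρ hg)
  have h3 : Continuous fun y => fderiv ℝ (uu κ ρ g x) y (W y) :=
    (h2.continuous_fderiv one_ne_zero).clm_apply hW
  have h4 : Continuous fun y => stp' ((uu κ ρ g x y - κ * r / 64) / (κ * r / 64)) :=
    (stp'_cont hB).comp ((h2.continuous.sub continuous_const).div_const _)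
  exact h1.mul ((h4.div_const _).mul (h3.add hm))

theorem pr_nonneg (hB : StmBas) (hκ : 0 < κ) (hρ : 0 < ρ) (h : LF κ R x f m W g) {r : ℝ}
    (hr : 0 < r) {y : V} (hy : y ∈ closedBall x R) : 0 ≤ Q85.VL.pr κ ρ g x W m r y := by
  unfold Q85.VL.pr
  have h1 := du_nonneg hB hκ hρ h hy
  have h2 := f_nonneg h hy
  have h3 : 0 ≤ fderiv ℝ (uu κ ρ g x) y (W y) + m y := le_trans (by positivity) h1
  refine mul_nonneg (stp_nonneg hB _) (mul_nonneg (div_nonneg (stp'_nonneg hB _) ?_) h3)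
  positivity

end fld

end Pool.Agent.Q182.VL
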