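import Pool.Agent.Q182.VL.G
import Pool.Agent.Q182.VL.Base

/-!
Project VL, jobs VL-1 and VL-2: the smooth step, the smooth distance, the bound of the flux.
-/

set_option autoImplicit false

open MeasureTheory Set Metric Filter Topology Asymptotics
open scoped ContDiff
open H459R3.NS Pool.Agent.W268.NS Pool.Agent.Q67.VD

namespace Pool.Agent.Q182.VL

open Pool.Agent.Q85.VL Pool.Agent.Q151.CC

/-! ### The smooth step -/

/-- the clamp -/
noncomputable def cl (s : ℝ) : ℝ := max 0 (min 1 s)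

theorem cl_nonneg (s : ℝ) : 0 ≤ cl s := le_max_left _ _
theorem cl_le (s : ℝ) : cl s ≤ 1 := max_le zero_le_one (min_le_left _ _)
theorem cl_zero {s : ℝ} (h : s ≤ 0) : cl s = 0 := max_eq_left ((min_le_right _ _).trans h)
theorem cl_one {s : ℝ} (h : 1 ≤ s) : cl s = 1 := by
  rw [cl, min_eq_left h, max_eq_right zero_le_one]
theorem cl_id {s : ℝ} (h0 : 0 ≤ s) (h1 : s ≤ 1) : cl s = s := by
  rw [cl, min_eq_right h1, max_eq_right h0]

theorem stp_eq (s : ℝ) : stp s = 3 * cl s ^ 2 - 2 * cl s ^ 3 := rfl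
theorem stp'_eq (s : ℝ) : stp' s = 6 * cl s * (1 - cl s) := rfl

theorem cl_lip_zero (s t : ℝ) (h : s ≤ 0) : cl t ≤ |t - s| := by
  rcases le_total t 0 with h1 | h1
  · rw [cl_zero h1]; exact abs_nonneg _
  · have h2 : cl t ≤ t := max_le h1 (min_le_right _ _)
    rw [abs_of_nonneg (by linarith)]
    linarith

theorem cl_lip_one (s t : ℝ) (h : 1 ≤ s) : 1 - cl t ≤ |t - s| := by
  rcases le_total 1 t with h1 | h1
  · rw [cl_one h1, sub_self]; exact abs_nonneg _
  · have h2 : t ≤ cl t := (le_min h1 le_rfl).trans (le_max_right _ _)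
    rw [abs_sub_comm, abs_of_nonneg (by linarith)]
    linarith

theorem sq_lo (s : ℝ) : (fun t : ℝ => (t - s) ^ 2) =o[𝓝 s] fun t => t - s := by
  have h1 : (fun x : ℝ => x ^ 2) =o[𝓝 0] fun x => x := isLittleO_pow_id one_lt_two
  have h2 : Tendsto (fun t : ℝ => t - s) (𝓝 s) (𝓝 0) := by
    have h3 : Continuous fun t : ℝ => t - s := by fun_prop
    have h4 := h3.tendsto s
    rwa [sub_self] at h4
  exact h1.comp_tendsto h2

theorem deriv_of_sq {F : ℝ → ℝ} {s : ℝ} (h : ∀ t, |F t - F s| ≤ 3 * |t - s| ^ 2) :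
    HasDerivAt F 0 s := by
  rw [hasDerivAt_iff_isLittleO]
  have h1 : (fun t => F t - F s - (t - s) • (0 : ℝ)) =O[𝓝 s] fun t => (t - s) ^ 2 := by
    refine IsBigO.of_bound 3 (Eventually.of_forall fun t => ?_)
    rw [smul_zero, sub_zero, Real.norm_eq_abs, Real.norm_eq_abs, abs_pow]
    exact h t
  exact h1.trans_isLittleO (sq_lo s)

theorem stp_hasDeriv (s : ℝ) : HasDerivAt stp (stp' s) s := by
  rcases le_or_gt s 0 with h | h
  · have h1 : stp' s = 0 := by rw [stp'_eq, cl_zero h]; ring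
    rw [h1]
    refine deriv_of_sq fun t => ?_
    rw [stp_eq, stp_eq, cl_zero h]
    have h2 := cl_lip_zero s t h
    have h3 := cl_nonneg t
    have h4 := cl_le t
    have h5 : 0 ≤ 3 * cl t ^ 2 - 2 * cl t ^ 3 := by nlinarith [sq_nonneg (cl t)]
    rw [show 3 * cl t ^ 2 - 2 * cl t ^ 3 - (3 * (0 : ℝ) ^ 2 - 2 * 0 ^ 3) =
      3 * cl t ^ 2 - 2 * cl t ^ 3 from by ring, abs_of_nonneg h5]
    have h6 : cl t ^ 2 ≤ |t - s| ^ 2 := pow_le_pow_left₀ h3 h2 2
    have h7 : 0 ≤ cl t ^ 3 := pow_nonneg h3 3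
    linarith
  rcases lt_or_ge s 1 with h' | h'
  · have h1 : stp =ᶠ[𝓝 s] fun t => 3 * t ^ 2 - 2 * t ^ 3 := by
      filter_upwards [Ioo_mem_nhds h h'] with t ht
      rw [stp_eq, cl_id ht.1.le ht.2.le]
    refine HasDerivAt.congr_of_eventuallyEq ?_ h1
    have h2 : HasDerivAt (fun t : ℝ => 3 * t ^ 2 - 2 * t ^ 3) (3 * (2 * s) - 2 * (3 * s ^ 2)) s := by
      have h3 := (hasDerivAt_pow 2 s).const_mul 3
      have h4 := (hasDerivAt_pow 3 s).const_mul 2
      have h5 := h3.fun_sub h4
      refine h5.congr_deriv ?_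
      norm_num
    refine h2.congr_deriv ?_
    rw [stp'_eq, cl_id h.le h'.le]
    ring
  · have h1 : stp' s = 0 := by rw [stp'_eq, cl_one h']; ring
    rw [h1]
    refine deriv_of_sq fun t => ?_
    rw [stp_eq, stp_eq, cl_one h']
    have h2 := cl_lip_one s t h'
    have h3 := cl_nonneg t
    have h4 := cl_le t
    have h5 : 1 - (3 * cl t ^ 2 - 2 * cl t ^ 3) = (1 - cl t) ^ 2 * (1 + 2 * cl t) := by ring
    have h6 : 0 ≤ (1 - cl t) ^ 2 * (1 + 2 * cl t) := by positivity
    rw [show 3 * cl t ^ 2 - 2 * cl t ^ 3 - (3 * (1 : ℝ) ^ 2 - 2 * 1 ^ 3) =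
      -(1 - (3 * cl t ^ 2 - 2 * cl t ^ 3)) from by ring, abs_neg, h5, abs_of_nonneg h6]
    have h7 : (1 - cl t) ^ 2 ≤ |t - s| ^ 2 := pow_le_pow_left₀ (by linarith) h2 2
    have h8 : 0 ≤ (1 - cl t) ^ 2 := sq_nonneg _
    nlinarith

theorem stp'_continuous : Continuous stp' := by
  unfold stp'
  fun_prop

theorem stp_zero' {s : ℝ} (h : s ≤ 0) : stp s = 0 := by rw [stp_eq, cl_zero h]; ring
theorem stp_one' {s : ℝ} (h : 1 ≤ s) : stp s = 1 := by rw [stp_eq, cl_one h]; ring
theorem stp'_zero {s : ℝ} (h : s ≤ 0) : stp' s = 0 := by rw [stp'_eq, cl_zero h]; ring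
theorem stp'_one {s : ℝ} (h : 1 ≤ s) : stp' s = 0 := by rw [stp'_eq, cl_one h]; ring

theorem stp_bounds (s : ℝ) : 0 ≤ stp s ∧ stp s ≤ 1 ∧ 0 ≤ stp' s ∧ stp' s ≤ 2 := by
  have h3 := cl_nonneg s
  have h4 := cl_le s
  rw [stp_eq, stp'_eq]
  refine ⟨?_, ?_, ?_, ?_⟩
  · have : 3 * cl s ^ 2 - 2 * cl s ^ 3 = cl s ^ 2 * (3 - 2 * cl s) := by ring
    rw [this]
    exact mul_nonneg (sq_nonneg _) (by linarith)
  · have h5 : 1 - (3 * cl s ^ 2 - 2 * cl s ^ 3) = (1 - cl s) ^ 2 * (1 + 2 * cl s) := by ring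
    have h6 : 0 ≤ (1 - cl s) ^ 2 * (1 + 2 * cl s) := by positivity
    linarith
  · exact mul_nonneg (by linarith) (by linarith)
  · nlinarith [sq_nonneg (cl s - 1 / 2)]

/-! ### The smooth distance -/

theorem len_sq (a : V) : len a ^ 2 = a ⬝ᵥ a := Real.sq_sqrt (dot_nn a)

theorem ds_eq (x : V) (ρ : ℝ) (y : V) : ds x ρ y = √(len (y - x) ^ 2 + ρ ^ 2) := by
  rw [len_sq]
  rfl

theorem norm_le_len (a : V) : ‖a‖ ≤ len a := by
  rw [pi_norm_le_iff_of_nonneg (len_nonneg a)]
  intro i
  rw [Real.norm_eq_abs]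
  refine Real.abs_le_sqrt ?_
  exact coord_sq a i

theorem len_smul (t : ℝ) (a : V) : len (t • a) = |t| * len a := by
  rw [len_eq, len_eq, WithLp.toLp_smul, norm_smul, Real.norm_eq_abs]

theorem len_abs_sub (a b : V) : |len a - len b| ≤ len (a - b) := by
  rw [len_eq, len_eq, len_eq, WithLp.toLp_sub]
  exact abs_norm_sub_norm_le _ _

/-- a Lipschitz bound gives a bound of the derivative -/
theorem lip_fd {φ : V → ℝ} (h : ∀ y z, |φ y - φ z| ≤ len (y - z)) (y n : V) :
    |fderiv ℝ φ y n| ≤ len n := by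
  by_cases hd : DifferentiableAt ℝ φ y
  · have h1 : HasDerivAt (fun t : ℝ => y + t • n) n 0 := by
      have := ((hasDerivAt_id (0 : ℝ)).smul_const n).const_add y
      simpa using this
    have h2 : HasFDerivAt φ (fderiv ℝ φ y) (y + (0 : ℝ) • n) := by
      rw [zero_smul, add_zero]
      exact hd.hasFDerivAt
    have h3 := h2.comp_hasDerivAt (0 : ℝ) h1
    have h4 := h3.le_of_lip' (len_nonneg n) (Eventually.of_forall fun t => by
      show ‖φ (y + t • n) - φ (y + (0 : ℝ) • n)‖ ≤ len n * ‖t - 0‖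
      rw [Real.norm_eq_abs, Real.norm_eq_abs, sub_zero, zero_smul, add_zero]
      refine (h _ _).trans ?_
      rw [add_sub_cancel_left, len_smul, mul_comm])
    exact h4
  · rw [fderiv_zero_of_not_differentiableAt hd]
    simp [len_nonneg n]

theorem stmBas : StmBas := by
  refine ⟨stp_hasDeriv, ?_, stp'_continuous, ?_, stp_bounds, fun s h => stp_zero' h,
    fun s h => stp_one' h, fun s h => ?_, fun s h => ?_, fun s h => ?_, fun x ρ hρ => ?_⟩
  · rw [contDiff_one_iff_deriv]
    refine ⟨fun s => (stp_hasDeriv s).differentiableAt, ?_⟩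
    have : deriv stp = stp' := funext fun s => (stp_hasDeriv s).deriv
    rw [this]
    exact stp'_continuous
  · refine monotone_of_deriv_nonneg (fun s => (stp_hasDeriv s).differentiableAt) fun s => ?_
    rw [(stp_hasDeriv s).deriv]
    exact (stp_bounds s).2.2.1
  · constructor
    · by_contra h1
      exact h (stp'_zero (not_lt.1 h1))
    · by_contra h1
      exact h (stp'_one (not_lt.1 h1))
  · by_contra h1
    exact h (stp_zero' (not_lt.1 h1))
  · by_contra h1
    exact h (stp_one' (not_lt.1 h1))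
  · have hlip : ∀ y z, |ds x ρ y - ds x ρ z| ≤ len (y - z) := by
      intro y z
      have h1 : len (y - x) - len (z - x) ≤ len (y - z) := by
        have := len_tri y z x
        linarith
      have h2 : len (z - x) - len (y - x) ≤ len (y - z) := by
        have := len_tri z y x
        rw [len_sub_comm z y] at this
        linarith
      have key : ∀ s t : ℝ, 0 ≤ s → 0 ≤ t → √(s ^ 2 + ρ ^ 2) - √(t ^ 2 + ρ ^ 2) ≤ |s - t| := by
        intro s t hs ht
        have h3 : √(s ^ 2 + ρ ^ 2) ≤ |s - t| + √(t ^ 2 + ρ ^ 2) := by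
          rw [Real.sqrt_le_left (by positivity)]
          have h4 := Real.sq_sqrt (show 0 ≤ t ^ 2 + ρ ^ 2 by positivity)
          have h5 : t ≤ √(t ^ 2 + ρ ^ 2) := Real.le_sqrt_of_sq_le (by nlinarith [sq_nonneg ρ])
          have h6 := le_abs_self (s - t)
          have h7 := sq_abs (s - t)
          have h8 := abs_nonneg (s - t)
          have h9 : |s - t| * t ≤ |s - t| * √(t ^ 2 + ρ ^ 2) := mul_le_mul_of_nonneg_left h5 h8
          have h10 : (s - t) * t ≤ |s - t| * t := mul_le_mul_of_nonneg_right h6 ht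
          nlinarith
        linarith
      rw [abs_sub_le_iff, ds_eq, ds_eq]
      have h3 : |len (y - x) - len (z - x)| ≤ len (y - z) := abs_sub_le_iff.2 ⟨h1, h2⟩
      constructor
      · exact (key _ _ (len_nonneg _) (len_nonneg _)).trans h3
      · refine (key _ _ (len_nonneg _) (len_nonneg _)).trans ?_
        rw [abs_sub_comm]
        exact h3
    refine ⟨?_, fun y => ?_, fun y => ?_, fun y => ?_, fun y => ?_, fun y hy => ?_, hlip, fun y n =>
      lip_fd hlip y n⟩
    · unfold ds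
      refine ContDiff.sqrt ?_ fun y => ?_
      · have : (fun y : V => (y - x) ⬝ᵥ (y - x) + ρ ^ 2) = fun y : V =>
            (y 0 - x 0) * (y 0 - x 0) + (y 1 - x 1) * (y 1 - x 1) + (y 2 - x 2) * (y 2 - x 2) +
              ρ ^ 2 := by
          funext y
          rw [dot3]
          rfl
        rw [this]
        fun_prop
      · have := dot_nn (y - x)
        positivity
    · rw [ds_eq]
      exact Real.le_sqrt_of_sq_le (by nlinarith [sq_nonneg ρ])
    · rw [ds_eq]
      exact Real.le_sqrt_of_sq_le (by nlinarith [sq_nonneg (len (y - x))])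
    · rw [ds_eq, Real.sqrt_le_left (by have := len_nonneg (y - x); positivity)]
      have := len_nonneg (y - x)
      nlinarith
    · rw [ds_eq]
      refine Real.le_sqrt_of_sq_le ?_
      have h1 := norm_le_len (y - x)
      have h2 : ‖y - x‖ ^ 2 ≤ len (y - x) ^ 2 := pow_le_pow_left₀ (norm_nonneg _) h1 2
      nlinarith [sq_nonneg ρ]
    · rw [ds_eq, Real.sqrt_le_left (by positivity), len_sq, dot3]
      have h1 : ∀ i, (y - x) i * (y - x) i ≤ ρ ^ 2 := by
        intro i
        have h2 := norm_le_pi_norm (y - x) i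
        rw [Real.norm_eq_abs] at h2
        have h3 := abs_le.1 (h2.trans hy)
        nlinarith
      have := h1 0
      have := h1 1
      have := h1 2
      linarith

/-! ### The bound of the flux -/

variable {κ ρ R r : ℝ} {x : V} {f m : V → ℝ} {W : V → V} {g : V → ℝ}

/-- the region where the density of the flux is not zero -/
theorem pr_geo (hB : StmBas) (hκ : 0 < κ) (hρ : 0 < ρ) (hr : 0 < r) {y : V}
    (h : Q85.VL.pr κ ρ g x W m r y ≠ 0) : ‖y - x‖ ≤ 5 * r / 8 ∧ 0 < uu κ ρ g x y := by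
  unfold Q85.VL.pr at h
  have h1 : TT κ ρ g x r y ≠ 0 := left_ne_zero_of_mul h
  have h2 : stp' ((uu κ ρ g x y - κ * r / 64) / (κ * r / 64)) ≠ 0 := by
    intro h3
    rw [h3] at h
    apply h
    ring
  have h3 := stp_ne hB h1
  rw [div_pos_iff_of_pos_right (by positivity)] at h3
  have h4 := stp'_ne hB h2
  rw [div_pos_iff_of_pos_right (by positivity), div_lt_one (by positivity)] at h4
  have h5 : uu κ ρ g x y - ww κ ρ g x y = κ / 4 * ds x ρ y := by
    unfold uu ww
    ring
  have h6 := norm_le_ds (x := x) hB hρ y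
  have h0 : 0 < κ * r := by positivity
  have h7 : κ / 4 * ds x ρ y ≤ κ / 4 * (5 * r / 8) := by
    rw [← h5]
    nlinarith [h3, h4.2]
  exact ⟨h6.trans (le_of_mul_le_mul_left h7 (by positivity)), by linarith [h4.1]⟩

theorem stmUB : StmUB := by
  intro κ ρ R r x f m W g hκ hκ1 hρ h hr hR
  have hB := stmBas
  have hK := isCompact_closedBall x R
  have hC : (0 : ℝ) ≤ 128 / (κ * r) := by positivity
  have c1 := pr_cont (κ := κ) (x := x) hB hρ h.gs h.wd.cont h.mc r
  have i1 : IntegrableOn (Q85.VL.pr κ ρ g x W m r) (closedBall x R) :=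
    c1.continuousOn.integrableOn_compact hK
  have c2 : Continuous fun y => 128 / (κ * r) * (2 * f y + m y) :=
    continuous_const.mul ((continuous_const.mul h.fc).add h.mc)
  have i2 : IntegrableOn ((closedBall x r).indicator fun y => 128 / (κ * r) * (2 * f y + m y))
      (closedBall x R) :=
    (c2.continuousOn.integrableOn_compact hK).indicator measurableSet_closedBall
  have h1 : AA κ ρ R g x W m r ≤ ∫ y in closedBall x R,
      (closedBall x r).indicator (fun y => 128 / (κ * r) * (2 * f y + m y)) y := by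
    refine setIntegral_mono_on i1 i2 measurableSet_closedBall fun y hy => ?_
    have hf := f_nonneg h hy
    have hm := h.m0 y
    by_cases hp : Q85.VL.pr κ ρ g x W m r y = 0
    · rw [hp]
      refine indicator_nonneg (fun z hz => ?_) y
      have h2 := f_nonneg h (closedBall_subset_closedBall hR hz)
      have h3 := h.m0 z
      positivity
    · have h2 := pr_geo hB hκ hρ hr hp
      have h3 : y ∈ closedBall x r := by
        rw [mem_closedBall, dist_eq_norm]
        linarith [h2.1]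
      rw [indicator_of_mem h3]
      have h4 : fderiv ℝ (uu κ ρ g x) y (W y) ≤ 2 * f y := by
        rw [uu_fd hB hρ h.gs]
        have h5 := (abs_le.1 (dds_le (x := x) hB hρ h hy)).1
        have h6 := (abs_le.1 ((lip_fd h.lip y (W y)).trans (h.up y hy))).2
        nlinarith
      have h5 := du_nonneg hB hκ hρ h hy
      have h6 : 0 ≤ fderiv ℝ (uu κ ρ g x) y (W y) + m y := le_trans (by positivity) h5
      have h7 : stp' ((uu κ ρ g x y - κ * r / 64) / (κ * r / 64)) / (κ * r / 64) ≤
          128 / (κ * r) := by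
        rw [div_le_div_iff₀ (by positivity) (by positivity)]
        have := stp'_le hB ((uu κ ρ g x y - κ * r / 64) / (κ * r / 64))
        have h0 : 0 < κ * r := by positivity
        nlinarith
      have h8 : 0 ≤ stp' ((uu κ ρ g x y - κ * r / 64) / (κ * r / 64)) / (κ * r / 64) :=
        div_nonneg (stp'_nonneg hB _) (by positivity)
      have h9 : TT κ ρ g x r y ≤ 1 := stp_le hB _
      have h10 : 0 ≤ TT κ ρ g x r y := stp_nonneg hB _
      unfold Q85.VL.pr
      calc TT κ ρ g x r y * (stp' ((uu κ ρ g x y - κ * r / 64) / (κ * r / 64)) / (κ * r / 64) *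
            (fderiv ℝ (uu κ ρ g x) y (W y) + m y)) ≤ 1 * (128 / (κ * r) *
            (fderiv ℝ (uu κ ρ g x) y (W y) + m y)) := by
            refine mul_le_mul h9 (mul_le_mul_of_nonneg_right h7 h6) (mul_nonneg h8 h6) zero_le_one
        _ = 128 / (κ * r) * (fderiv ℝ (uu κ ρ g x) y (W y) + m y) := one_mul _
        _ ≤ 128 / (κ * r) * (2 * f y + m y) := by
            refine mul_le_mul_of_nonneg_left ?_ hC
            linarith
  rw [setIntegral_indicator measurableSet_closedBall,
    inter_eq_right.2 (closedBall_subset_closedBall hR), integral_const_mul] at h1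
  exact h1

end Pool.Agent.Q182.VL
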