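import Pool.Agent.Q182.VL.Base

/-!
Project VL, job VL-3: comparison of two scales.
-/

set_option autoImplicit false

open MeasureTheory Set Metric
open scoped ContDiff
open H459R3.NS Pool.Agent.W268.NS Pool.Agent.Q67.VD

namespace Pool.Agent.Q182.VL

open Pool.Agent.Q85.VL Pool.Agent.Q151.CC

variable {κ ρ R r r' : ℝ} {x : V} {f m : V → ℝ} {W : V → V} {g : V → ℝ}

/-- the test function -/
noncomputable def HH (κ ρ : ℝ) (g : V → ℝ) (x : V) (r r' : ℝ) (y : V) : ℝ :=
  (1 - PS κ ρ g x r y) * (TT κ ρ g x r' y * PS κ ρ g x r' y)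

theorem HH_one (hB : StmBas) (hρ : 0 < ρ) (hg : ContDiff ℝ 1 g) :
    ContDiff ℝ 1 (HH κ ρ g x r r') :=
  (contDiff_const.sub (PS_one hB hρ hg r)).mul ((TT_one hB hρ hg r').mul (PS_one hB hρ hg r'))

theorem HH_fd (hB : StmBas) (hρ : 0 < ρ) (hg : ContDiff ℝ 1 g) (y n : V) :
    fderiv ℝ (HH κ ρ g x r r') y n =
      (1 - PS κ ρ g x r y) *
        (TT κ ρ g x r' y * (stp' ((uu κ ρ g x y - κ * r' / 64) / (κ * r' / 64)) / (κ * r' / 64) *
            fderiv ℝ (uu κ ρ g x) y n) +
          PS κ ρ g x r' y * (stp' ((ww κ ρ g x y + κ * r' / 8) / (κ * r' / 16)) / (κ * r' / 16) *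
            fderiv ℝ (ww κ ρ g x) y n)) -
        (TT κ ρ g x r' y * PS κ ρ g x r' y) *
          (stp' ((uu κ ρ g x y - κ * r / 64) / (κ * r / 64)) / (κ * r / 64) *
            fderiv ℝ (uu κ ρ g x) y n) := by
  have h1 := PS_deriv (κ := κ) (x := x) hB hρ hg r y
  have h2 := PS_deriv (κ := κ) (x := x) hB hρ hg r' y
  have h3 := TT_deriv (κ := κ) (x := x) hB hρ hg r' y
  have h4 := (h1.const_sub 1).fun_mul (h3.fun_mul h2)
  have h5 : HH κ ρ g x r r' = fun y => (1 - PS κ ρ g x r y) *
    (TT κ ρ g x r' y * PS κ ρ g x r' y) := rfl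
  rw [h5, h4.fderiv]
  simp only [add_apply, smul_apply, smul_eq_mul, neg_apply]
  ring

/-- the region of the difference of the two scales -/
theorem geo (hB : StmBas) (hκ : 0 < κ) (hρ : 0 < ρ) (hr : r' ≤ r / 2) {y : V}
    (h1 : uu κ ρ g x y ≤ κ * r / 32) (h2 : -(κ * r' / 8) ≤ ww κ ρ g x y) :
    ‖y - x‖ ≤ 3 * r / 8 := by
  have h3 : uu κ ρ g x y - ww κ ρ g x y = κ / 4 * ds x ρ y := by
    unfold uu ww
    ring
  have h4 := norm_le_ds (x := x) hB hρ y
  have h5 : κ / 4 * ds x ρ y ≤ κ / 4 * (3 * r / 8) := by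
    rw [← h3]
    nlinarith
  exact h4.trans (le_of_mul_le_mul_left h5 (by positivity))

theorem HH_zero (hB : StmBas) (hκ : 0 < κ) (hr' : 0 < r') (hr0 : 0 < r) {y : V}
    (h : ¬ (uu κ ρ g x y ≤ κ * r / 32 ∧ -(κ * r' / 8) ≤ ww κ ρ g x y)) : HH κ ρ g x r r' y = 0 := by
  rw [not_and_or, not_le, not_le] at h
  rcases h with h | h
  · have h1 : PS κ ρ g x r y = 1 := by
      refine stp_one hB ?_
      rw [le_div_iff₀ (by positivity)]
      linarith
    rw [HH, h1]
    ring
  · have h1 : TT κ ρ g x r' y = 0 := by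
      refine stp_zero hB ?_
      rw [div_nonpos_iff]
      right
      constructor
      · linarith
      · positivity
    rw [HH, h1]
    ring

theorem HH_supp (hB : StmBas) (hκ : 0 < κ) (hρ : 0 < ρ) (hr' : 0 < r') (hr : r' ≤ r / 2)
    (hR : r ≤ R) : tsupport (HH κ ρ g x r r') ⊆ closedBall x R := by
  refine closure_minimal (fun y hy => ?_) isClosed_closedBall
  have h1 : uu κ ρ g x y ≤ κ * r / 32 ∧ -(κ * r' / 8) ≤ ww κ ρ g x y := by
    by_contra h
    exact hy (HH_zero hB hκ hr' (by linarith) h)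
  rw [mem_closedBall, dist_eq_norm]
  have := geo hB hκ hρ hr h1.1 h1.2
  linarith

theorem key (hB : StmBas) (hκ : 0 < κ) (hρ : 0 < ρ) (h : LF κ R x f m W g) (hr' : 0 < r')
    (hr : r' ≤ r / 2) {y : V} (hy : y ∈ closedBall x R) :
    Q85.VL.pr κ ρ g x W m r' y ≤ fderiv ℝ (HH κ ρ g x r r') y (W y) + Q85.VL.pr κ ρ g x W m r y +
      (closedBall x r).indicator (fun y => 256 / (κ * r') * m y) y := by
  have hr0 : 0 < r := by linarith
  have hdu := du_nonneg hB hκ hρ h hy
  have hdw := dw_nonneg hB hκ hρ h hy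
  have hf := f_nonneg h hy
  have hm := h.m0 y
  rw [HH_fd hB hρ h.gs, Q85.VL.pr, Q85.VL.pr]
  set u := uu κ ρ g x y with hu
  set w := ww κ ρ g x y with hw
  set du := fderiv ℝ (uu κ ρ g x) y (W y) with hdu'
  set dw := fderiv ℝ (ww κ ρ g x) y (W y) with hdw'
  have hdu0 : 0 ≤ du + m y := le_trans (by positivity) hdu
  have hdw0 : 0 ≤ dw + m y := le_trans (by positivity) hdw
  set a := stp' ((u - κ * r' / 64) / (κ * r' / 64)) / (κ * r' / 64) with ha
  set b := stp' ((w + κ * r' / 8) / (κ * r' / 16)) / (κ * r' / 16) with hb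
  set c := stp' ((u - κ * r / 64) / (κ * r / 64)) / (κ * r / 64) with hc
  have ha0 : 0 ≤ a := div_nonneg (stp'_nonneg hB _) (by positivity)
  have hb0 : 0 ≤ b := div_nonneg (stp'_nonneg hB _) (by positivity)
  have hc0 : 0 ≤ c := div_nonneg (stp'_nonneg hB _) (by positivity)
  have ha1 : a ≤ 128 / (κ * r') := by
    rw [ha, div_le_div_iff₀ (by positivity) (by positivity)]
    have := stp'_le hB ((u - κ * r' / 64) / (κ * r' / 64))
    have h0 : 0 < κ * r' := by positivity
    nlinarith
  have hb1 : b ≤ 32 / (κ * r') := by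
    rw [hb, div_le_div_iff₀ (by positivity) (by positivity)]
    have := stp'_le hB ((w + κ * r' / 8) / (κ * r' / 16))
    have h0 : 0 < κ * r' := by positivity
    nlinarith
  have hP0 : 0 ≤ PS κ ρ g x r y := stp_nonneg hB _
  have hP1 : PS κ ρ g x r y ≤ 1 := stp_le hB _
  have hP'0 : 0 ≤ PS κ ρ g x r' y := stp_nonneg hB _
  have hP'1 : PS κ ρ g x r' y ≤ 1 := stp_le hB _
  have hT'0 : 0 ≤ TT κ ρ g x r' y := stp_nonneg hB _
  have hT'1 : TT κ ρ g x r' y ≤ 1 := stp_le hB _
  have hT0 : 0 ≤ TT κ ρ g x r y := stp_nonneg hB _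
  have hT1 : TT κ ρ g x r y ≤ 1 := stp_le hB _
  -- `T' ≤ T`
  have hTT : TT κ ρ g x r' y ≤ TT κ ρ g x r y := by
    by_cases hw0 : TT κ ρ g x r' y = 0
    · rw [hw0]; exact hT0
    · have h1 := stp_ne hB hw0
      rw [← hw, lt_div_iff₀ (by positivity)] at h1
      have h2 : TT κ ρ g x r y = 1 := by
        refine stp_one hB ?_
        rw [← hw, le_div_iff₀ (by positivity)]
        nlinarith
      rw [h2]; exact hT'1
  -- where `a ≠ 0` we have `P = 0` and `c = 0`
  have haP : a ≠ 0 → PS κ ρ g x r y = 0 := by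
    intro h1
    have h2 : stp' ((u - κ * r' / 64) / (κ * r' / 64)) ≠ 0 := by
      intro h3
      apply h1
      rw [ha, h3, zero_div]
    have h3 := (stp'_ne hB h2).2
    rw [div_lt_iff₀ (by positivity)] at h3
    refine stp_zero hB ?_
    rw [← hu, div_nonpos_iff]
    right
    constructor
    · nlinarith
    · positivity
  have hPa : (1 - PS κ ρ g x r y) * a = a := by
    by_cases h1 : a = 0
    · rw [h1]; ring
    · rw [haP h1]; ring
  have hC : (0 : ℝ) ≤ 256 / (κ * r') := by positivity
  by_cases hS : u ≤ κ * r / 32 ∧ -(κ * r' / 8) ≤ w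
  · have hyr : y ∈ closedBall x r := by
      rw [mem_closedBall, dist_eq_norm]
      have := geo hB hκ hρ hr hS.1 hS.2
      linarith
    rw [indicator_of_mem hyr]
    have e1 : (1 - PS κ ρ g x r y) * (TT κ ρ g x r' y * (a * du) + PS κ ρ g x r' y * (b * dw)) =
        TT κ ρ g x r' y * (a * du) + (1 - PS κ ρ g x r y) * PS κ ρ g x r' y * b * dw := by
      calc (1 - PS κ ρ g x r y) * (TT κ ρ g x r' y * (a * du) + PS κ ρ g x r' y * (b * dw)) =
          TT κ ρ g x r' y * (((1 - PS κ ρ g x r y) * a) * du) +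
            (1 - PS κ ρ g x r y) * PS κ ρ g x r' y * b * dw := by ring
        _ = _ := by rw [hPa]
    rw [e1]
    -- the three estimates
    have i1 : TT κ ρ g x r' y * (a * m y) ≤ 128 / (κ * r') * m y := by
      have h1 : TT κ ρ g x r' y * a ≤ 1 * (128 / (κ * r')) :=
        mul_le_mul hT'1 ha1 ha0 zero_le_one
      calc TT κ ρ g x r' y * (a * m y) = (TT κ ρ g x r' y * a) * m y := by ring
        _ ≤ (1 * (128 / (κ * r'))) * m y := mul_le_mul_of_nonneg_right h1 hm
        _ = _ := by ring
    have i2 : -(32 / (κ * r') * m y) ≤ (1 - PS κ ρ g x r y) * PS κ ρ g x r' y * b * dw := by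
      have h1 : 0 ≤ (1 - PS κ ρ g x r y) * PS κ ρ g x r' y := mul_nonneg (by linarith) hP'0
      have h2 : (1 - PS κ ρ g x r y) * PS κ ρ g x r' y ≤ 1 := by nlinarith
      have h3 : (1 - PS κ ρ g x r y) * PS κ ρ g x r' y * b ≤ 1 * (32 / (κ * r')) :=
        mul_le_mul h2 hb1 hb0 zero_le_one
      have h4 : 0 ≤ (1 - PS κ ρ g x r y) * PS κ ρ g x r' y * b := mul_nonneg h1 hb0
      nlinarith
    have i3 : TT κ ρ g x r' y * PS κ ρ g x r' y * (c * du) ≤
        TT κ ρ g x r y * (c * (du + m y)) := by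
      have h1 : TT κ ρ g x r' y * PS κ ρ g x r' y ≤ TT κ ρ g x r y := by nlinarith
      have h2 : c * du ≤ c * (du + m y) := by nlinarith
      have h3 : 0 ≤ c * (du + m y) := mul_nonneg hc0 hdu0
      have h4 : 0 ≤ TT κ ρ g x r' y * PS κ ρ g x r' y := mul_nonneg hT'0 hP'0
      calc TT κ ρ g x r' y * PS κ ρ g x r' y * (c * du) ≤
          TT κ ρ g x r' y * PS κ ρ g x r' y * (c * (du + m y)) := mul_le_mul_of_nonneg_left h2 h4
        _ ≤ _ := mul_le_mul_of_nonneg_right h1 h3
    have i4 : 128 / (κ * r') * m y + 32 / (κ * r') * m y ≤ 256 / (κ * r') * m y := by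
      have : 256 / (κ * r') * m y - (128 / (κ * r') * m y + 32 / (κ * r') * m y) =
          96 / (κ * r') * m y := by ring
      have h2 : 0 ≤ 96 / (κ * r') * m y := by positivity
      linarith
    have i5 : TT κ ρ g x r' y * (a * (du + m y)) =
        TT κ ρ g x r' y * (a * du) + TT κ ρ g x r' y * (a * m y) := by ring
    rw [i5]
    linarith
  · have hind : 0 ≤ (closedBall x r).indicator (fun y => 256 / (κ * r') * m y) y := by
      refine indicator_nonneg (fun z _ => ?_) y
      exact mul_nonneg hC (h.m0 z)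
    have i3 : 0 ≤ TT κ ρ g x r y * (c * (du + m y)) := mul_nonneg hT0 (mul_nonneg hc0 hdu0)
    rw [not_and_or, not_le, not_le] at hS
    rcases hS with hS | hS
    · have h1 : PS κ ρ g x r y = 1 := by
        refine stp_one hB ?_
        rw [← hu, le_div_iff₀ (by positivity)]
        linarith
      have h2 : a = 0 := by
        by_contra h3
        rw [haP h3] at h1
        exact zero_ne_one h1
      have h3 : c = 0 := by
        by_contra h3
        have h4 : stp' ((u - κ * r / 64) / (κ * r / 64)) ≠ 0 := by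
          intro h5
          apply h3
          rw [hc, h5, zero_div]
        have h5 := (stp'_ne hB h4).2
        rw [div_lt_iff₀ (by positivity)] at h5
        linarith
      rw [h1, h2, h3]
      simp only [zero_mul, mul_zero, sub_self, zero_add]
      exact hind
    · have h1 : TT κ ρ g x r' y = 0 := by
        refine stp_zero hB ?_
        rw [← hw, div_nonpos_iff]
        right
        constructor
        · linarith
        · positivity
      have h2 : b = 0 := by
        by_contra h3
        have h4 : stp' ((w + κ * r' / 8) / (κ * r' / 16)) ≠ 0 := by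
          intro h5
          apply h3
          rw [hb, h5, zero_div]
        have h5 := (stp'_ne hB h4).1
        rw [div_pos_iff_of_pos_right (by positivity)] at h5
        linarith
      rw [h1, h2]
      simp only [zero_mul, mul_zero, sub_zero, zero_add, add_zero]
      linarith

/-- the integrals of the pointwise inequality -/
theorem stmCmp (hB : StmBas) : StmCmp := by
  intro κ ρ R r r' x f m W g hκ hκ1 hρ h hr' hr hR
  have hr0 : 0 < r := by linarith
  have hK := isCompact_closedBall x R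
  have c1 := pr_cont (κ := κ) (x := x) hB hρ h.gs h.wd.cont h.mc r
  have c2 := pr_cont (κ := κ) (x := x) hB hρ h.gs h.wd.cont h.mc r'
  have c3 : Continuous fun y => fderiv ℝ (HH κ ρ g x r r') y (W y) :=
    ((HH_one hB hρ h.gs).continuous_fderiv one_ne_zero).clm_apply h.wd.cont
  have i1 : IntegrableOn (Q85.VL.pr κ ρ g x W m r) (closedBall x R) :=
    c1.continuousOn.integrableOn_compact hK
  have i2 : IntegrableOn (Q85.VL.pr κ ρ g x W m r') (closedBall x R) :=
    c2.continuousOn.integrableOn_compact hK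
  have i3 : IntegrableOn (fun y => fderiv ℝ (HH κ ρ g x r r') y (W y)) (closedBall x R) :=
    c3.continuousOn.integrableOn_compact hK
  have i4 : IntegrableOn ((closedBall x r).indicator (fun y => 256 / (κ * r') * m y))
      (closedBall x R) :=
    ((continuous_const.mul h.mc).continuousOn.integrableOn_compact hK).indicator
      measurableSet_closedBall
  have h1 : AA κ ρ R g x W m r' ≤ ∫ y in closedBall x R,
      (fderiv ℝ (HH κ ρ g x r r') y (W y) + Q85.VL.pr κ ρ g x W m r y +
        (closedBall x r).indicator (fun y => 256 / (κ * r') * m y) y) :=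
    setIntegral_mono_on i2 ((i3.add i1).add i4) measurableSet_closedBall
      fun y hy => key hB hκ hρ h hr' hr hy
  have h2 : ∫ y in closedBall x R,
      (fderiv ℝ (HH κ ρ g x r r') y (W y) + Q85.VL.pr κ ρ g x W m r y +
        (closedBall x r).indicator (fun y => 256 / (κ * r') * m y) y) =
      0 + AA κ ρ R g x W m r + 256 / (κ * r') * ∫ y in closedBall x r, m y := by
    have e1 := h.wd.div (HH κ ρ g x r r') (HH_one hB hρ h.gs) (HH_supp hB hκ hρ hr' hr hR)
    have e2 : ∫ y in closedBall x R,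
        (closedBall x r).indicator (fun y => 256 / (κ * r') * m y) y =
        256 / (κ * r') * ∫ y in closedBall x r, m y := by
      rw [setIntegral_indicator measurableSet_closedBall,
        inter_eq_right.2 (closedBall_subset_closedBall hR), integral_const_mul]
    have e3 := integral_add (f := fun y => fderiv ℝ (HH κ ρ g x r r') y (W y) +
      Q85.VL.pr κ ρ g x W m r y) (i3.add i1) i4
    have e4 := integral_add (f := fun y => fderiv ℝ (HH κ ρ g x r r') y (W y))
      (g := Q85.VL.pr κ ρ g x W m r) i3 i1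
    rw [e3, e4, e1, e2]
    rfl
  rw [h2, zero_add] at h1
  exact h1

end Pool.Agent.Q182.VL
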