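import Pool.Agent.Q85.VL.Defs

/-!
Project VL, job VL-12: without a closed chain there is a function which increases along the arcs.
-/

set_option autoImplicit false

open MeasureTheory Set Metric
open H459R3.NS Pool.Agent.W268.NS Pool.Agent.Q67.VD

namespace Pool.Agent.Q182.VL

open Pool.Agent.Q85.VL

theorem len_eq (a : V) : len a = ‖(WithLp.toLp 2 a : EuclideanSpace ℝ (Fin 3))‖ := by
  rw [EuclideanSpace.norm_eq, len]
  congr 1
  rw [dotProduct]
  refine Finset.sum_congr rfl fun i _ => ?_
  rw [Real.norm_eq_abs, sq_abs]
  ring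

theorem len_zero : len 0 = 0 := by rw [len_eq]; simp

theorem len_nonneg (a : V) : 0 ≤ len a := Real.sqrt_nonneg _

theorem len_sub_comm (a b : V) : len (a - b) = len (b - a) := by
  rw [len_eq, len_eq, WithLp.toLp_sub, WithLp.toLp_sub, norm_sub_rev]

theorem len_tri (a b c : V) : len (a - c) ≤ len (a - b) + len (b - c) := by
  rw [len_eq, len_eq, len_eq, WithLp.toLp_sub, WithLp.toLp_sub, WithLp.toLp_sub]
  exact norm_sub_le_norm_sub_add_norm_sub _ _ _

/-- the point before the arc with the number `i` -/
def prev (a : V) (q : ℕ → V) : ℕ → V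
  | 0 => a
  | i + 1 => q i

/-- the value of a chain of `n` arcs at `y` -/
noncomputable def val (a : V) (ε : ℝ) (n : ℕ) (p q : ℕ → V) (l : ℕ → ℝ) (y : V) : ℝ :=
  ε * ∑ i ∈ Finset.range n, l i - ∑ i ∈ Finset.range n, len (p i - prev a q i) -
    len (y - prev a q n)

/-- the set of the values -/
def SV (z : V → V) (D : Set V) (a : V) (ε : ℝ) (y : V) : Set ℝ :=
  {v | ∃ (n : ℕ) (p q : ℕ → V) (l : ℕ → ℝ), (∀ i < n, Arc z D (p i) (q i) (l i)) ∧
    v = val a ε n p q l y}

theorem SV_nonempty (z : V → V) (D : Set V) (a : V) (ε : ℝ) (y : V) : (SV z D a ε y).Nonempty :=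
  ⟨_, 0, fun _ => 0, fun _ => 0, fun _ => 0, fun i hi => absurd hi (Nat.not_lt_zero i), rfl⟩

theorem SV_le {z : V → V} {D : Set V} {a : V} {ε : ℝ} (_hε : 0 < ε) (h : ¬ Chained z D ε) (y : V)
    {v : ℝ} (hv : v ∈ SV z D a ε y) : v ≤ len (y - a) := by
  obtain ⟨n, p, q, l, harc, rfl⟩ := hv
  rcases n with _ | n
  · simp only [val, Finset.range_zero, Finset.sum_empty, mul_zero, prev]
    have := len_nonneg (y - a)
    linarith
  · have h1 : ε * ∑ i ∈ Finset.range (n + 1), l i ≤
        ∑ i ∈ Finset.range (n + 1), len (Function.update p (n + 1) (p 0) (i + 1) - q i) := by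
      by_contra hcon
      push Not at hcon
      refine h ⟨n + 1, Function.update p (n + 1) (p 0), q, l, Nat.succ_pos n, ?_, ?_, hcon⟩
      · rw [Function.update_self, Function.update_of_ne (by omega)]
      · intro i hi
        rw [Function.update_of_ne (by omega)]
        exact harc i hi
    have h2 : ∑ i ∈ Finset.range (n + 1), len (Function.update p (n + 1) (p 0) (i + 1) - q i) =
        ∑ i ∈ Finset.range n, len (p (i + 1) - q i) + len (p 0 - q n) := by
      rw [Finset.sum_range_succ, Function.update_self]
      congr 1
      refine Finset.sum_congr rfl fun i hi => ?_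
      rw [Finset.mem_range] at hi
      rw [Function.update_of_ne (by omega)]
    have h3 : ∑ i ∈ Finset.range (n + 1), len (p i - prev a q i) =
        ∑ i ∈ Finset.range n, len (p (i + 1) - q i) + len (p 0 - a) := by
      rw [Finset.sum_range_succ']
      rfl
    have h4 : prev a q (n + 1) = q n := rfl
    rw [val, h3, h4]
    rw [h2] at h1
    have h5 := len_tri (p 0) y (q n)
    have h6 := len_tri (p 0) a y
    rw [len_sub_comm a y] at h6
    linarith

theorem SV_bdd {z : V → V} {D : Set V} {a : V} {ε : ℝ} (hε : 0 < ε) (h : ¬ Chained z D ε) (y : V) :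
    BddAbove (SV z D a ε y) := ⟨len (y - a), fun _ hv => SV_le hε h y hv⟩

theorem SV_lip {z : V → V} {D : Set V} {a : V} {ε : ℝ} (hε : 0 < ε) (h : ¬ Chained z D ε)
    (y y' : V) : sSup (SV z D a ε y) ≤ sSup (SV z D a ε y') + len (y - y') := by
  refine csSup_le (SV_nonempty z D a ε y) ?_
  rintro v ⟨n, p, q, l, harc, rfl⟩
  have h1 : val a ε n p q l y' ≤ sSup (SV z D a ε y') :=
    le_csSup (SV_bdd hε h y') ⟨n, p, q, l, harc, rfl⟩
  have h2 := len_tri y' y (prev a q n)
  rw [len_sub_comm y' y] at h2
  unfold val at h1 ⊢
  linarith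

theorem stmG : StmG := by
  intro z D a R ε hD hε h
  refine ⟨fun y => sSup (SV z D a ε y), fun y y' => ?_, fun p' q' l' harc' => ?_⟩
  · rw [abs_sub_le_iff]
    have h1 := SV_lip (a := a) hε h y y'
    have h2 := SV_lip (a := a) hε h y' y
    rw [len_sub_comm y' y] at h2
    constructor <;> linarith
  · show sSup (SV z D a ε p') + ε * l' ≤ sSup (SV z D a ε q')
    rw [← le_sub_iff_add_le]
    refine csSup_le (SV_nonempty z D a ε p') ?_
    rintro v ⟨n, p, q, l, harc, rfl⟩
    rw [le_sub_iff_add_le]
    refine le_csSup (SV_bdd hε h q') ⟨n + 1, Function.update p n p', Function.update q n q',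
      Function.update l n l', fun i hi => ?_, ?_⟩
    · rcases Nat.lt_succ_iff_lt_or_eq.1 hi with h1 | rfl
      · rw [Function.update_of_ne (by omega), Function.update_of_ne (by omega),
          Function.update_of_ne (by omega)]
        exact harc i h1
      · rw [Function.update_self, Function.update_self, Function.update_self]
        exact harc'
    · have h1 : ∀ i ≤ n, prev a (Function.update q n q') i = prev a q i := by
        intro i hi
        rcases i with _ | i
        · rfl
        · show Function.update q n q' i = q i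
          rw [Function.update_of_ne (by omega)]
      have h2 : ∑ i ∈ Finset.range n, Function.update l n l' i = ∑ i ∈ Finset.range n, l i := by
        refine Finset.sum_congr rfl fun i hi => ?_
        rw [Finset.mem_range] at hi
        rw [Function.update_of_ne (by omega)]
      have h3 : ∑ i ∈ Finset.range n, len (Function.update p n p' i -
          prev a (Function.update q n q') i) = ∑ i ∈ Finset.range n, len (p i - prev a q i) := by
        refine Finset.sum_congr rfl fun i hi => ?_
        rw [Finset.mem_range] at hi
        rw [Function.update_of_ne (by omega), h1 i (by omega)]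
      have h4 : prev a (Function.update q n q') (n + 1) = q' := by
        show Function.update q n q' n = q'
        rw [Function.update_self]
      rw [val, val, Finset.sum_range_succ, Finset.sum_range_succ, h2, h3, h4, h1 n le_rfl,
        Function.update_self, Function.update_self, sub_self, len_zero]
      ring

end Pool.Agent.Q182.VL
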